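import Mathlib

/-!
Counting lemma for windows in front of marks (helper42's COUNT LEMMA for MP_12c032, all orders).
-/

set_option autoImplicit false

namespace TFA

/-- the window of a mark `(z, a)`: the `L - g + a` integers below `z` -/
noncomputable def win (L g : ℕ) (m : ℤ × ℕ) : Finset ℤ := Finset.Ico (m.1 - ((L : ℤ) - g + m.2)) m.1

/-- the weight of a mark -/
def wgt (L g : ℕ) (m : ℤ × ℕ) : ℕ := if m.2 = 0 then L - g else 1

theorem mem_win {L g : ℕ} {m : ℤ × ℕ} {t : ℤ} :
    t ∈ win L g m ↔ m.1 - ((L : ℤ) - g + m.2) ≤ t ∧ t < m.1 := by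
  rw [win, Finset.mem_Ico]

/-- the weight of marks of different types is at most the length of the longest window -/
theorem sum_wgt_le {L g : ℕ} (hg : g < L) (K : Finset (ℤ × ℕ)) (hK : K.Nonempty)
    (hinj : ∀ m ∈ K, ∀ m' ∈ K, m.2 = m'.2 → m = m') {N : ℤ}
    (hN : ∀ m ∈ K, (L : ℤ) - g + m.2 ≤ N) : ((∑ m ∈ K, wgt L g m : ℕ) : ℤ) ≤ N := by
  classical
  obtain ⟨m0, hm0, hmax⟩ := Finset.exists_max_image K (fun m => m.2) hK
  have h1 : ∑ m ∈ K, wgt L g m ≤ ∑ a ∈ Finset.range (m0.2 + 1), (if a = 0 then L - g else 1) := by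
    have h2 : ∑ m ∈ K, wgt L g m =
        ∑ a ∈ K.image (fun m => m.2), (if a = 0 then L - g else 1) := by
      rw [Finset.sum_image]
      · rfl
      · intro m hm m' hm' h
        exact hinj m hm m' hm' h
    rw [h2]
    refine Finset.sum_le_sum_of_subset ?_
    intro a ha
    obtain ⟨m, hm, rfl⟩ := Finset.mem_image.1 ha
    exact Finset.mem_range.2 (Nat.lt_succ_of_le (hmax m hm))
  have h3 : ∑ a ∈ Finset.range (m0.2 + 1), (if a = 0 then L - g else 1) = (L - g) + m0.2 := by
    rw [Finset.sum_range_succ']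
    simp
    ring
  have h4 := hN m0 hm0
  have h5 : ((L - g : ℕ) : ℤ) = (L : ℤ) - g := by
    have := hg.le
    omega
  calc ((∑ m ∈ K, wgt L g m : ℕ) : ℤ) ≤ (((L - g) + m0.2 : ℕ) : ℤ) := by
        exact_mod_cast (h1.trans h3.le)
    _ = (L : ℤ) - g + m0.2 := by
        push_cast [h5]
        ring
    _ ≤ N := h4

/-- COUNT LEMMA: marks `(z, a)` with types `a ≤ g < L`, marks of the same type at distance at
least `L`; the windows `[z - (L - g + a), z - 1]` cover at least as many integers as the sum of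
the weights, `L - g` for type `0` and `1` for the other types. -/
theorem count_windows {L g : ℕ} (hg : g < L) (M : Finset (ℤ × ℕ)) (ha : ∀ m ∈ M, m.2 ≤ g)
    (hd : ∀ m ∈ M, ∀ m' ∈ M, m.2 = m'.2 → m.1 < m'.1 → (L : ℤ) ≤ m'.1 - m.1) :
    ∑ m ∈ M, wgt L g m ≤ (M.biUnion (win L g)).card := by
  classical
  induction M using Finset.strongInduction with
  | H M ih =>
    rcases M.eq_empty_or_nonempty with rfl | hne
    · simp
    obtain ⟨m1, hm1, hmax⟩ := Finset.exists_max_image M (fun m => m.1) hne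
    set U := M.biUnion (win L g) with hU
    have hwin1 : ∀ m ∈ M, m.1 - 1 ∈ win L g m := by
      intro m hm
      rw [mem_win]
      omega
    -- the cut
    obtain ⟨cut, hc1, hc2, hc3, hc4⟩ : ∃ cut : ℤ, cut < m1.1 ∧ m1.1 - L ≤ cut ∧
        (∀ t, cut ≤ t → t < m1.1 → t ∈ U) ∧ (cut = m1.1 - L ∨ cut - 1 ∉ U) := by
      by_cases hall : ∀ t, m1.1 - L ≤ t → t < m1.1 → t ∈ U
      · exact ⟨m1.1 - L, by omega, le_rfl, hall, Or.inl rfl⟩
      · push Not at hall
        obtain ⟨t, ht1, ht2, ht3⟩ := hall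
        set B := (Finset.Ico (m1.1 - L) m1.1).filter (fun t => t ∉ U) with hB
        have hBne : B.Nonempty := ⟨t, by
          rw [hB, Finset.mem_filter, Finset.mem_Ico]
          exact ⟨⟨ht1, ht2⟩, ht3⟩⟩
        obtain ⟨t0, ht0, hmax0⟩ := Finset.exists_max_image B (fun t => t) hBne
        rw [hB, Finset.mem_filter, Finset.mem_Ico] at ht0
        have hne1 : t0 ≠ m1.1 - 1 := by
          intro h
          apply ht0.2
          rw [h, hU, Finset.mem_biUnion]
          exact ⟨m1, hm1, hwin1 m1 hm1⟩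
        refine ⟨t0 + 1, by omega, by omega, ?_, Or.inr ?_⟩
        · intro s hs1 hs2
          by_contra hs3
          have : s ∈ B := by
            rw [hB, Finset.mem_filter, Finset.mem_Ico]
            exact ⟨⟨by omega, hs2⟩, hs3⟩
          have := hmax0 s this
          omega
        · have : t0 + 1 - 1 = t0 := by ring
          rw [this]
          exact ht0.2
    set K := M.filter (fun m => cut < m.1) with hK
    set R := M.filter (fun m => ¬ cut < m.1) with hR
    have hsum : ∑ m ∈ M, wgt L g m = ∑ m ∈ K, wgt L g m + ∑ m ∈ R, wgt L g m :=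
      (Finset.sum_filter_add_sum_filter_not M _ _).symm
    have hKM : ∀ m ∈ K, m ∈ M ∧ cut < m.1 := fun m hm => Finset.mem_filter.1 hm
    have hRM : ∀ m ∈ R, m ∈ M ∧ m.1 ≤ cut := fun m hm => by
      have := Finset.mem_filter.1 hm
      exact ⟨this.1, not_lt.1 this.2⟩
    have hRss : R ⊂ M := by
      refine Finset.ssubset_iff_subset_ne.2 ⟨Finset.filter_subset _ _, ?_⟩
      intro h
      have : m1 ∈ R := h ▸ hm1
      have := (hRM m1 this).2
      omega
    have hih := ih R hRss (fun m hm => ha m (hRM m hm).1)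
      (fun m hm m' hm' => hd m (hRM m hm).1 m' (hRM m' hm').1)
    -- weight of `K`
    have hKne : K.Nonempty := ⟨m1, by
      rw [hK, Finset.mem_filter]
      exact ⟨hm1, hc1⟩⟩
    have hinj : ∀ m ∈ K, ∀ m' ∈ K, m.2 = m'.2 → m = m' := by
      intro m hm m' hm' h
      obtain ⟨h1, h2⟩ := hKM m hm
      obtain ⟨h3, h4⟩ := hKM m' hm'
      have h5 := hmax m h1
      have h6 := hmax m' h3
      rcases lt_trichotomy m.1 m'.1 with h7 | h7 | h7
      · have := hd m h1 m' h3 h h7
        omega
      · exact Prod.ext h7 h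
      · have := hd m' h3 m h1 h.symm h7
        omega
    have hKN : ∀ m ∈ K, (L : ℤ) - g + m.2 ≤ m1.1 - cut := by
      intro m hm
      obtain ⟨h1, h2⟩ := hKM m hm
      have h3 := hmax m h1
      have h4 := ha m h1
      rcases hc4 with h5 | h5
      · omega
      · by_contra hcon
        apply h5
        rw [hU, Finset.mem_biUnion]
        refine ⟨m, h1, ?_⟩
        rw [mem_win]
        omega
    have hwK := sum_wgt_le hg K hKne hinj hKN
    -- the two parts of the union
    have hdisj : Disjoint (Finset.Ico cut m1.1) (R.biUnion (win L g)) := by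
      rw [Finset.disjoint_left]
      intro t ht1 ht2
      rw [Finset.mem_Ico] at ht1
      obtain ⟨m, hm, ht3⟩ := Finset.mem_biUnion.1 ht2
      rw [mem_win] at ht3
      have := (hRM m hm).2
      omega
    have hsub : Finset.Ico cut m1.1 ∪ R.biUnion (win L g) ⊆ U := by
      refine Finset.union_subset ?_ ?_
      · intro t ht
        rw [Finset.mem_Ico] at ht
        exact hc3 t ht.1 ht.2
      · exact Finset.biUnion_subset_biUnion_of_subset_left _ (Finset.filter_subset _ _)
    have hcard := Finset.card_le_card hsub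
    rw [Finset.card_union_of_disjoint hdisj, Int.card_Ico] at hcard
    have h7 : ((m1.1 - cut).toNat : ℤ) = m1.1 - cut := Int.toNat_of_nonneg (by omega)
    rw [hsum]
    have h8 : ∑ m ∈ K, wgt L g m ≤ (m1.1 - cut).toNat := by
      have : ((∑ m ∈ K, wgt L g m : ℕ) : ℤ) ≤ ((m1.1 - cut).toNat : ℤ) := by
        rw [h7]
        exact hwK
      exact_mod_cast this
    omega

/-- The counting lemma for families of positions. -/
theorem count_windows' {L g : ℕ} (hg : g < L) (M : ℕ → Finset ℤ)
    (hd : ∀ a ≤ g, ∀ z ∈ M a, ∀ z' ∈ M a, z < z' → (L : ℤ) ≤ z' - z) :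
    (L - g) * (M 0).card + ∑ a ∈ Finset.Icc 1 g, (M a).card ≤
      ((Finset.range (g + 1)).biUnion fun a => (M a).biUnion fun z =>
        Finset.Ico (z - ((L : ℤ) - g + a)) z).card := by
  classical
  set P : Finset (ℤ × ℕ) := (Finset.range (g + 1)).biUnion fun a =>
    (M a).image (fun z => (z, a)) with hP
  have hmem : ∀ m : ℤ × ℕ, m ∈ P ↔ m.2 ≤ g ∧ m.1 ∈ M m.2 := by
    intro m
    rw [hP, Finset.mem_biUnion]
    constructor
    · rintro ⟨a, h1, h2⟩
      obtain ⟨z, h3, rfl⟩ := Finset.mem_image.1 h2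
      exact ⟨Nat.lt_succ_iff.1 (Finset.mem_range.1 h1), h3⟩
    · rintro ⟨h1, h2⟩
      exact ⟨m.2, Finset.mem_range.2 (Nat.lt_succ_of_le h1), Finset.mem_image.2 ⟨m.1, h2, rfl⟩⟩
  have h1 := count_windows hg P (fun m hm => ((hmem m).1 hm).1) (by
    intro m hm m' hm' h h'
    obtain ⟨h2, h3⟩ := (hmem m).1 hm
    obtain ⟨h4, h5⟩ := (hmem m').1 hm'
    rw [← h] at h5
    exact hd m.2 h2 m.1 h3 m'.1 h5 h')
  have h2 : ∑ m ∈ P, wgt L g m = (L - g) * (M 0).card + ∑ a ∈ Finset.Icc 1 g, (M a).card := by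
    rw [hP, Finset.sum_biUnion]
    · have h3 : ∀ a, ∑ m ∈ (M a).image (fun z => (z, a)), wgt L g m =
          (if a = 0 then L - g else 1) * (M a).card := by
        intro a
        rw [Finset.sum_image (fun z _ z' _ h => (Prod.ext_iff.1 h).1)]
        have h4 : ∀ z ∈ M a, wgt L g (z, a) = (if a = 0 then L - g else 1) := fun z _ => rfl
        rw [Finset.sum_congr rfl h4, Finset.sum_const, smul_eq_mul, mul_comm]
      simp only [h3]
      rw [Finset.sum_range_succ']
      simp only [Nat.succ_ne_zero, if_false, one_mul, if_true]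
      rw [add_comm]
      congr 1
      refine Finset.sum_nbij (fun i => i + 1) ?_ ?_ ?_ ?_
      · intro i hi
        rw [Finset.mem_Icc]
        have := Finset.mem_range.1 hi
        omega
      · intro i _ j _ h
        simpa using h
      · intro j hj
        have := Finset.mem_Icc.1 (Finset.mem_coe.1 hj)
        exact ⟨j - 1, Finset.mem_coe.2 (Finset.mem_range.2 (by omega)), by
          show j - 1 + 1 = j
          omega⟩
      · intro i _
        rfl
    · intro a _ b _ hab
      rw [Function.onFun, Finset.disjoint_left]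
      intro m h3 h4
      obtain ⟨z, _, rfl⟩ := Finset.mem_image.1 h3
      obtain ⟨z', _, h5⟩ := Finset.mem_image.1 h4
      exact hab (Prod.ext_iff.1 h5).2.symm
  rw [h2] at h1
  refine h1.trans (Finset.card_le_card ?_)
  intro t ht
  obtain ⟨m, hm, ht2⟩ := Finset.mem_biUnion.1 ht
  obtain ⟨h3, h4⟩ := (hmem m).1 hm
  rw [Finset.mem_biUnion]
  refine ⟨m.2, Finset.mem_range.2 (Nat.lt_succ_of_le h3), ?_⟩
  rw [Finset.mem_biUnion]
  exact ⟨m.1, h4, ht2⟩

end TFA
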