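import Pool.Agent.TFG.Win
import Pool.Agent.TFA.Cnt

/-!
Positions on a single cycle, counted back to a vertex `p`, and the counting lemma for windows in
front of marks on the cycle.
-/

set_option autoImplicit false

namespace TFA

open List Pool.Agent.TF82 Pool.Agent.TFC Pool.Agent.TFB Pool.Agent.TFN Pool.Agent.TFG

universe u

variable {V : Type u} [DecidableEq V]

/-- on a single cycle every vertex reaches `p` by going back -/
theorem exists_back {G : SimpleGraph V} {F : List (List V)} (hF : Fam G F) (hF1 : F.length = 1)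
    {x p : V} (hx : x ∈ F.flatten) (hp : p ∈ F.flatten) :
    ∃ i < F.flatten.length, (prv F)^[i] x = p := by
  classical
  have hinj : Set.InjOn (fun i => (prv F)^[i] x) (Finset.range F.flatten.length : Set ℕ) := by
    have key : ∀ i j : ℕ, i ≤ j → j < F.flatten.length → (prv F)^[i] x = (prv F)^[j] x →
        i = j := by
      intro i j hij hj h
      by_contra hne
      have e1 : j = i + (j - i) := by omega
      have e : (prv F)^[j] x = (prv F)^[i] ((prv F)^[j - i] x) := by
        rw [← Function.iterate_add_apply, ← e1]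
      rw [e] at h
      have h1 := iter_inj hF hx (iter_mem hF hx _) i h
      exact iter_ne_one hF hF1 hx (j - i) (by omega) (by omega) h1.symm
    intro i hi j hj h
    rw [Finset.mem_coe, Finset.mem_range] at hi hj
    rcases le_total i j with h1 | h1
    · exact key i j h1 hj h
    · exact (key j i h1 hi h.symm).symm
  have himg : (Finset.range F.flatten.length).image (fun i => (prv F)^[i] x) =
      F.flatten.toFinset := by
    refine Finset.eq_of_subset_of_card_le ?_ ?_
    · intro y hy
      obtain ⟨i, _, rfl⟩ := Finset.mem_image.1 hy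
      exact List.mem_toFinset.2 (iter_mem hF hx i)
    · rw [Finset.card_image_of_injOn hinj, Finset.card_range]
      exact List.toFinset_card_le _
  have : p ∈ (Finset.range F.flatten.length).image (fun i => (prv F)^[i] x) := by
    rw [himg]
    exact List.mem_toFinset.2 hp
  obtain ⟨i, hi, h⟩ := Finset.mem_image.1 this
  exact ⟨i, Finset.mem_range.1 hi, h⟩

open Classical in
/-- the number of steps back from `x` to `p` -/
noncomputable def idx (F : List (List V)) (p x : V) : ℕ :=
  if h : ∃ i, (prv F)^[i] x = p then Nat.find h else 0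

theorem idx_spec {G : SimpleGraph V} {F : List (List V)} (hF : Fam G F) (hF1 : F.length = 1)
    {x p : V} (hx : x ∈ F.flatten) (hp : p ∈ F.flatten) :
    (prv F)^[idx F p x] x = p := by
  classical
  obtain ⟨i, _, hi⟩ := exists_back hF hF1 hx hp
  have h : ∃ i, (prv F)^[i] x = p := ⟨i, hi⟩
  rw [idx, dif_pos h]
  exact Nat.find_spec h

theorem idx_le {F : List (List V)} {x p : V} {i : ℕ} (h : (prv F)^[i] x = p) :
    idx F p x ≤ i := by
  classical
  have h' : ∃ i, (prv F)^[i] x = p := ⟨i, h⟩
  rw [idx, dif_pos h']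
  exact Nat.find_min' h' h

theorem idx_lt {G : SimpleGraph V} {F : List (List V)} (hF : Fam G F) (hF1 : F.length = 1)
    {x p : V} (hx : x ∈ F.flatten) (hp : p ∈ F.flatten) : idx F p x < F.flatten.length := by
  obtain ⟨i, hi, h⟩ := exists_back hF hF1 hx hp
  exact (idx_le h).trans_lt hi

theorem idx_self {F : List (List V)} {p : V} : idx F p p = 0 :=
  Nat.le_zero.1 (idx_le (i := 0) rfl)

theorem idx_back {G : SimpleGraph V} {F : List (List V)} (hF : Fam G F) (hF1 : F.length = 1)
    {x p : V} (hx : x ∈ F.flatten) (hp : p ∈ F.flatten) {b : ℕ} (hb : b ≤ idx F p x) :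
    idx F p ((prv F)^[b] x) = idx F p x - b := by
  have h1 := idx_spec hF hF1 hx hp
  have h2 := idx_spec hF hF1 (iter_mem hF hx b) hp
  apply le_antisymm
  · apply idx_le
    rw [← Function.iterate_add_apply, Nat.sub_add_cancel hb]
    exact h1
  · rw [← Function.iterate_add_apply] at h2
    have := idx_le h2
    omega

theorem idx_inj {G : SimpleGraph V} {F : List (List V)} (hF : Fam G F) (hF1 : F.length = 1)
    {x y p : V} (hx : x ∈ F.flatten) (hy : y ∈ F.flatten) (hp : p ∈ F.flatten)
    (h : idx F p x = idx F p y) : x = y := by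
  have h1 := idx_spec hF hF1 hx hp
  have h2 := idx_spec hF hF1 hy hp
  rw [← h] at h2
  exact iter_inj hF hx hy _ (h1.trans h2.symm)

/-- COUNT LEMMA on a cycle. Marks `(y, a)`, `a ≤ g < L`, on a single cycle `F`, marks of the same
type at distance at least `L`; the `L - g + a` vertices before `y` are different from `p` and not
adjacent to `p`. Then `p` has at least `∑ weight` non-neighbours on the cycle. -/
theorem nn_marks {G : SimpleGraph V} [DecidableRel G.Adj] {F : List (List V)} (hF : Fam G F)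
    (hF1 : F.length = 1) {p : V} (hp : p ∈ F.flatten) {L g : ℕ} (hg : g < L)
    (M : Finset (V × ℕ)) (hMF : ∀ m ∈ M, m.1 ∈ F.flatten) (hmp : ∀ m ∈ M, m.1 ≠ p)
    (ha : ∀ m ∈ M, m.2 ≤ g)
    (hd : ∀ m ∈ M, ∀ m' ∈ M, m.2 = m'.2 → m.1 ≠ m'.1 → ∀ i, i < L → (prv F)^[i] m.1 ≠ m'.1)
    (hw : ∀ m ∈ M, ∀ b, 1 ≤ b → b ≤ L - g + m.2 →
      (prv F)^[b] m.1 ≠ p ∧ ¬ G.Adj p ((prv F)^[b] m.1)) :
    ∑ m ∈ M, (if m.2 = 0 then L - g else 1) ≤
      (F.flatten.toFinset.filter (fun z => z ≠ p ∧ ¬ G.Adj p z)).card := by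
  classical
  set φ : V × ℕ → ℤ × ℕ := fun m => ((idx F p m.1 : ℤ), m.2) with hφ
  have hφinj : Set.InjOn φ (M : Set (V × ℕ)) := by
    intro m hm m' hm' h
    rw [hφ] at h
    simp only [Prod.mk.injEq, Nat.cast_inj] at h
    exact Prod.ext (idx_inj hF hF1 (hMF m hm) (hMF m' hm') hp h.1) h.2
  have hlen : ∀ m ∈ M, L - g + m.2 < idx F p m.1 := by
    intro m hm
    by_contra hcon
    push Not at hcon
    have h1 := idx_spec hF hF1 (hMF m hm) hp
    rcases Nat.eq_zero_or_pos (idx F p m.1) with h0 | h0
    · rw [h0] at h1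
      exact hmp m hm h1
    · exact (hw m hm _ h0 hcon).1 h1
  have h1 := count_windows hg (M.image φ) (by
    intro m hm
    obtain ⟨m', hm', rfl⟩ := Finset.mem_image.1 hm
    exact ha m' hm') (by
    intro m hm m' hm' h h'
    obtain ⟨n, hn, rfl⟩ := Finset.mem_image.1 hm
    obtain ⟨n', hn', rfl⟩ := Finset.mem_image.1 hm'
    simp only [hφ] at h h' ⊢
    have h2 : idx F p n.1 < idx F p n'.1 := by exact_mod_cast h'
    by_contra hcon
    push Not at hcon
    have h3 : idx F p n'.1 - idx F p n.1 < L := by omega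
    have h4 : (prv F)^[idx F p n'.1 - idx F p n.1] n'.1 = n.1 := by
      refine idx_inj hF hF1 (iter_mem hF (hMF n' hn') _) (hMF n hn) hp ?_
      rw [idx_back hF hF1 (hMF n' hn') hp (by omega)]
      omega
    refine hd n' hn' n hn h.symm ?_ _ h3 h4
    intro h5
    rw [h5] at h2
    exact lt_irrefl _ h2)
  have h2 : ∑ m ∈ M.image φ, wgt L g m = ∑ m ∈ M, (if m.2 = 0 then L - g else 1) := by
    rw [Finset.sum_image hφinj]
    rfl
  rw [h2] at h1
  refine h1.trans ?_
  have h3 : (M.image φ).biUnion (win L g) ⊆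
      (F.flatten.toFinset.filter (fun z => z ≠ p ∧ ¬ G.Adj p z)).image
        (fun z => (idx F p z : ℤ)) := by
    intro t ht
    obtain ⟨n, hn, ht2⟩ := Finset.mem_biUnion.1 ht
    obtain ⟨m, hm, rfl⟩ := Finset.mem_image.1 hn
    rw [mem_win] at ht2
    simp only [hφ] at ht2
    obtain ⟨h4, h5⟩ := ht2
    have h6 := hlen m hm
    have h7 : ((L - g : ℕ) : ℤ) = (L : ℤ) - g := by omega
    have h8 : 0 ≤ t := by omega
    obtain ⟨t', rfl⟩ := Int.eq_ofNat_of_zero_le h8
    set b := idx F p m.1 - t' with hb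
    have hb1 : 1 ≤ b := by omega
    have hb2 : b ≤ L - g + m.2 := by omega
    obtain ⟨h9, h10⟩ := hw m hm b hb1 hb2
    refine Finset.mem_image.2 ⟨(prv F)^[b] m.1, ?_, ?_⟩
    · rw [Finset.mem_filter, List.mem_toFinset]
      exact ⟨iter_mem hF (hMF m hm) b, h9, h10⟩
    · have h11 := idx_back hF hF1 (hMF m hm) hp (b := b) (by omega)
      simp only [h11]
      omega
  exact (Finset.card_le_card h3).trans Finset.card_image_le

end TFA
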