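import Pool.Agent.TFA.Idx

/-!
Linked hubs and the length of a longest cycle; the sum of the numbers of hubs seen by the members
of independent sets of the components is at most the length of the cycle.
-/

set_option autoImplicit false

namespace TFA

open List Pool.Agent.TF82 Pool.Agent.TFC Pool.Agent.TFB Pool.Agent.TFN Pool.Agent.TFG

universe u

variable {V : Type u} [DecidableEq V]

/-- a link between two hubs of a longest cycle is shorter than the cycle -/
theorem link_lt [Fintype V] {G : SimpleGraph V} {F : List (List V)} (hM : IsMax G F.length F)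
    (hF1 : F.length = 1) {y s t : V} (hs : s ∈ F.flatten) (ht : t ∈ F.flatten) (hst : s ≠ t)
    {n : ℕ} (hl : Link G F y n s t) : n < F.flatten.length := by
  obtain ⟨i, hi, h⟩ := exists_back hM.fam hF1 ht hs
  by_contra hcon
  push Not at hcon
  exact link_far hM ht hl (Ne.symm hst) i (by omega) h

/-- the windows of length `mu t + 1` before pairwise linked hubs are disjoint -/
theorem len_count [Fintype V] {G : SimpleGraph V} {F : List (List V)} (hM : IsMax G F.length F)
    (hF1 : F.length = 1) {y : V} {W : Finset V} (hS : ∀ s ∈ W, s ∈ F.flatten) {mu : V → ℕ}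
    (hlink : ∀ s ∈ W, ∀ t ∈ W, s ≠ t → Link G F y (mu t) s t) (h2 : 2 ≤ W.card) :
    ∑ t ∈ W, (mu t + 1) ≤ F.flatten.length := by
  classical
  have hcard : (W.sigma (fun t => Finset.range (mu t + 1))).card = ∑ t ∈ W, (mu t + 1) := by
    rw [Finset.card_sigma]
    simp
  have hL : F.flatten.toFinset.card = F.flatten.length := List.toFinset_card_of_nodup hM.fam.nod
  rw [← hcard, ← hL]
  have hmu : ∀ t ∈ W, mu t < F.flatten.length := by
    intro t ht
    obtain ⟨s, hs, hst⟩ := Finset.exists_mem_ne (by omega : 1 < W.card) t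
    exact link_lt hM hF1 (hS s hs) (hS t ht) hst (hlink s hs t ht hst)
  refine Finset.card_le_card_of_injOn (fun q : (Σ _ : V, ℕ) => (prv F)^[q.2] q.1) ?_ ?_
  · rintro ⟨t, j⟩ hq
    rw [Finset.mem_coe, Finset.mem_sigma, Finset.mem_range] at hq
    rw [Finset.mem_coe, List.mem_toFinset]
    exact iter_mem hM.fam (hS t hq.1) _
  · rintro ⟨t, j⟩ hq ⟨t', j'⟩ hq' h
    rw [Finset.mem_coe, Finset.mem_sigma, Finset.mem_range] at hq hq'
    obtain ⟨ht, hj⟩ := hq
    obtain ⟨ht', hj'⟩ := hq'
    simp only at ht hj ht' hj' h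
    have htt : t = t' := by
      by_contra hne
      rcases le_total (mu t) (mu t') with hle | hle
      · exact link_iter_ne (a := j) (b := j') hM (hS t ht) (hS t' ht') hne
          (hlink t ht t' ht' hne) (by omega) (by omega) h
      · exact link_iter_ne (a := j') (b := j) hM (hS t' ht') (hS t ht) (Ne.symm hne)
          (hlink t' ht' t ht (Ne.symm hne)) (by omega) (by omega) h.symm
    subst htt
    have hjj : j = j' := by
      by_contra hne
      have key : ∀ a c : ℕ, a < c → c < mu t + 1 → (prv F)^[a] t ≠ (prv F)^[c] t := by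
        intro a c hac hc h
        have e1 : c = a + (c - a) := by omega
        have e : (prv F)^[c] t = (prv F)^[a] ((prv F)^[c - a] t) := by
          rw [← Function.iterate_add_apply, ← e1]
        rw [e] at h
        have h1 := iter_inj hM.fam (hS t ht) (iter_mem hM.fam (hS t ht) _) a h
        have h3 := hmu t ht
        exact iter_ne_one hM.fam hF1 (hS t ht) (c - a) (by omega) (by omega) h1.symm
      rcases Nat.lt_or_gt_of_ne hne with h1 | h1
      · exact key j j' h1 hj' h
      · exact key j' j h1 hj h.symm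
    rw [hjj]

/-- NO `p`: the members of all the components see at most `|c|` hubs, with multiplicities. -/
theorem nop_count [Fintype V] {G : SimpleGraph V} {F : List (List V)}
    (hM : IsMax G F.length F) (hF1 : F.length = 1) (R : Finset V) (A : V → Finset V)
    (n : V → V → ℕ) (m b : V → ℕ)
    (hA : ∀ y ∈ R, ∀ s ∈ A y, s ∈ F.flatten) (hA2 : ∀ y ∈ R, 2 ≤ (A y).card)
    (hn : ∀ y ∈ R, ∀ s ∈ A y, n y s ≤ m y)
    (hb : ∀ y ∈ R, ∑ y' ∈ R.erase y, m y' ≤ b y)
    (hF : ∀ y ∈ R, ∀ s ∈ A y, ∀ t ∈ A y, s ≠ t → 1 ≤ n y s → Link G F y (b y + 1 + n y s) s t) :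
    ∑ y ∈ R, ∑ s ∈ A y, n y s ≤ F.flatten.length := by
  classical
  -- the number of hubs seen by a component
  set h : V → ℕ := fun y => ((A y).filter (fun s => 1 ≤ n y s)).card with hh
  have hT : ∀ y ∈ R, ∑ s ∈ A y, n y s = ∑ s ∈ (A y).filter (fun s => 1 ≤ n y s), n y s := by
    intro y _
    rw [Finset.sum_filter]
    refine Finset.sum_congr rfl (fun s _ => ?_)
    split_ifs with h1
    · rfl
    · omega
  have hTm : ∀ y ∈ R, ∑ s ∈ A y, n y s ≤ h y * m y := by
    intro y hy
    rw [hT y hy]
    refine (Finset.sum_le_card_nsmul _ _ (m y) (fun s hs => hn y hy s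
      (Finset.mem_filter.1 hs).1)).trans ?_
    rw [smul_eq_mul]
  rcases R.eq_empty_or_nonempty with rfl | hR
  · simp
  obtain ⟨i, hi, himax⟩ := Finset.exists_max_image R h hR
  have hsum : ∑ y ∈ R, ∑ s ∈ A y, n y s ≤ ∑ s ∈ A i, n i s + h i * b i := by
    rw [← Finset.add_sum_erase R _ hi]
    refine Nat.add_le_add_left ?_ _
    refine le_trans ?_ (Nat.mul_le_mul_left (h i) (hb i hi))
    rw [Finset.mul_sum]
    refine Finset.sum_le_sum (fun y hy => ?_)
    have hy' := Finset.mem_of_mem_erase hy
    exact (hTm y hy').trans (Nat.mul_le_mul_right _ (himax y hy'))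
  rcases Nat.lt_or_ge (h i) 2 with h1 | h1
  · rcases Nat.eq_zero_or_pos (h i) with h0 | h0
    · have h3 := hTm i hi
      rw [h0] at hsum h3
      simp only [zero_mul, nonpos_iff_eq_zero] at hsum h3
      omega
    · have h2 : h i = 1 := by omega
      obtain ⟨s, hs⟩ := Finset.card_eq_one.1 h2
      have hs' : s ∈ (A i).filter (fun s => 1 ≤ n i s) := by rw [hs]; exact Finset.mem_singleton_self s
      have hs1 := Finset.mem_filter.1 hs'
      obtain ⟨t, ht, hts⟩ := Finset.exists_mem_ne (by have := hA2 i hi; omega : 1 < (A i).card) s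
      have hTi : ∑ s ∈ A i, n i s = n i s := by rw [hT i hi, hs, Finset.sum_singleton]
      have hl := hF i hi s hs1.1 t ht (Ne.symm hts) hs1.2
      have hlen := len_count (W := {s, t}) (mu := fun _ => b i + 1 + n i s) hM hF1 (by
          intro u hu
          rw [Finset.mem_insert, Finset.mem_singleton] at hu
          rcases hu with rfl | rfl
          · exact hA i hi _ hs1.1
          · exact hA i hi _ ht) (y := i) (by
          intro u hu v hv huv
          rw [Finset.mem_insert, Finset.mem_singleton] at hu hv
          rcases hu with rfl | rfl <;> rcases hv with rfl | rfl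
          · exact absurd rfl huv
          · exact hl
          · exact hl.symm
          · exact absurd rfl huv) (by rw [Finset.card_pair (Ne.symm hts)])
      rw [Finset.sum_pair (Ne.symm hts)] at hlen
      rw [h2, one_mul, hTi] at hsum
      omega
  · have hlen := len_count (W := (A i).filter (fun s => 1 ≤ n i s))
      (mu := fun t => b i + 1 + n i t) hM hF1 (fun s hs => hA i hi s (Finset.mem_filter.1 hs).1)
      (y := i) (by
        intro s hs t ht hst
        exact (hF i hi t (Finset.mem_filter.1 ht).1 s (Finset.mem_filter.1 hs).1 (Ne.symm hst)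
          (Finset.mem_filter.1 ht).2).symm) h1
    have h3 : ∑ t ∈ (A i).filter (fun s => 1 ≤ n i s), (b i + 1 + n i t + 1) =
        h i * b i + 2 * h i + ∑ s ∈ A i, n i s := by
      rw [hT i hi]
      rw [Finset.sum_congr rfl (fun t _ => show b i + 1 + n i t + 1 = (b i + 2) + n i t by omega),
        Finset.sum_add_distrib, Finset.sum_const, smul_eq_mul]
      ring
    rw [h3] at hlen
    omega

end TFA
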