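import Pool.Agent.TFA.NoP

/-!
Runs of blocked vertices before the hubs of one component of the rest of a longest cycle: all the
labels (components for which a vertex is strong, or optional vertices) are different.
-/

set_option autoImplicit false

namespace TFA

open List Pool.Agent.TF82 Pool.Agent.TFC Pool.Agent.TFB Pool.Agent.TFN Pool.Agent.TFG

universe u

variable {V : Type u} [DecidableEq V]

/-- the data of the runs: `R` components, `hub y s`: `s` is a hub of `y`, `str y s`: a strong hub,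
`B` the optional vertices on the cycle -/
structure RunData [Fintype V] (G : SimpleGraph V) (F : List (List V)) (R B : Finset V)
    (hub str : V → V → Prop) (Lam : ℕ) : Prop where
  max : IsMax G F.length F
  one : F.length = 1
  dis : ∀ y ∈ R, ∀ y' ∈ R, y ≠ y' → Disjoint (comp G F y) (comp G F y')
  lam : R.card + B.card + 2 ≤ Lam
  len : R.card + B.card < F.flatten.length
  sh : ∀ y ∈ R, ∀ u, str y u → hub y u
  hstr : ∀ y ∈ R, ∀ u ∈ F.flatten, ∀ u' ∈ F.flatten, u ≠ u' → str y u → hub y u' →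
    Link G F y Lam u u'
  hhub : ∀ y ∈ R, ∀ u ∈ F.flatten, ∀ u' ∈ F.flatten, u ≠ u' → hub y u → hub y u' →
    Link G F y 1 u u'

namespace RunData

variable [Fintype V] {G : SimpleGraph V} {F : List (List V)} {R B : Finset V}
  {hub str : V → V → Prop} {Lam : ℕ}

theorem noret (h : RunData G F R B hub str Lam) {x : V} (hx : x ∈ F.flatten) {i : ℕ}
    (hi : 1 ≤ i) (hi2 : i ≤ R.card + B.card) : (prv F)^[i] x ≠ x :=
  iter_ne_one h.max.fam h.one hx i hi (lt_of_le_of_lt hi2 h.len)

/-- two positions of one run -/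
theorem pos_ne (h : RunData G F R B hub str Lam) {x : V} (hx : x ∈ F.flatten) {i j : ℕ}
    (hij : i < j) (hj : j - i ≤ R.card + B.card) : (prv F)^[i] x ≠ (prv F)^[j] x := by
  intro he
  have e1 : j = i + (j - i) := by omega
  have e : (prv F)^[j] x = (prv F)^[i] ((prv F)^[j - i] x) := by
    rw [← Function.iterate_add_apply, ← e1]
  rw [e] at he
  have h1 := iter_inj h.max.fam hx (iter_mem h.max.fam hx _) i he
  exact h.noret hx (by omega) hj h1.symm

/-- on one run a strong hub is not followed by another hub of the same component -/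
theorem same (h : RunData G F R B hub str Lam) {x y : V} (hy : y ∈ R) (hx : x ∈ F.flatten)
    {i j : ℕ} (hij : i < j) (hj : j - i ≤ R.card + B.card) (hs : str y ((prv F)^[i] x))
    (hh : hub y ((prv F)^[j] x)) : False := by
  have hne := h.pos_ne hx hij hj
  have hm := iter_mem h.max.fam hx i
  have hl := h.hstr y hy _ hm _ (iter_mem h.max.fam hx j) hne hs hh
  have hlam := h.lam
  refine link_far h.max hm hl.symm hne (j - i) (by omega) ?_
  rw [← Function.iterate_add_apply]
  congr 1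
  omega

/-- a vertex of the run before a hub of `y` is not strong for `y` -/
theorem own (h : RunData G F R B hub str Lam) {s y : V} (hy : y ∈ R) (hs : s ∈ F.flatten)
    (hh : hub y s) {i : ℕ} (hi : 1 ≤ i) (hi2 : i ≤ R.card + B.card)
    (hst : str y ((prv F)^[i] s)) : False := by
  have hne := h.noret hs hi hi2
  have hl := h.hstr y hy _ (iter_mem h.max.fam hs i) _ hs hne hst hh
  have hlam := h.lam
  exact link_far h.max hs hl hne.symm i (by omega) rfl

/-- two runs: no two hubs of one other component -/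
theorem two (h : RunData G F R B hub str Lam) {s t y y' : V} (hy : y ∈ R) (hy' : y' ∈ R)
    (hyy : y' ≠ y) (hs : s ∈ F.flatten) (ht : t ∈ F.flatten) (hst : s ≠ t)
    (hl : Link G F y Lam s t) {a b : ℕ} (ha : a ≤ R.card + B.card) (hb : b ≤ R.card + B.card)
    (hab : a + b ≤ Lam) (h1 : hub y' ((prv F)^[a + 1] s)) (h2 : hub y' ((prv F)^[b + 1] t)) :
    False := by
  have hlam := h.lam
  have hne : (prv F)^[a + 1] s ≠ (prv F)^[b + 1] t :=
    link_iter_ne h.max hs ht hst hl (by omega) (by omega)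
  obtain ⟨X, p1, p2, x1, x2, x3, x4, x5, x6⟩ := h.hhub y' hy' _ (iter_mem h.max.fam hs _) _
    (iter_mem h.max.fam ht _) hne h1 h2
  have f1 := link_far h.max hs hl.symm hst
  have f2 := link_far h.max ht hl hst.symm
  obtain ⟨Y, q1, q2, y1, y2, y3, y4, y5, y6⟩ := hl
  have hdis := h.dis y' hy' y hy hyy
  have := route2 h.max hs ht hst (a := a) (b := b) (X := X) (Y := Y)
    (fun i hi hia => ⟨h.noret hs hi (by omega), f1 i (by omega)⟩)
    (fun i hi hib => ⟨h.noret ht hi (by omega), f2 i (by omega)⟩)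
    (chain_ends x1.ch x1.hd x1.lt x5 x6.symm)
    (chain_ends y1.ch y1.hd y1.lt y5 y6.symm) (by
      rw [List.nodup_append]
      refine ⟨x2, y2, ?_⟩
      rintro a ha b hb rfl
      exact Finset.disjoint_left.1 hdis (x3 a ha) (y3 a hb))
    (by
      intro x hx
      rcases List.mem_append.1 hx with hx | hx
      · exact mem_unc.1 (mem_comp.1 (x3 x hx)).1
      · exact mem_unc.1 (mem_comp.1 (y3 x hx)).1)
  omega

/-- the labels are different: short runs -/
theorem runs_aux (h : RunData G F R B hub str Lam) {y : V} (hy : y ∈ R) {D : Finset V}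
    (hD : ∀ s ∈ D, s ∈ F.flatten) (hDh : ∀ s ∈ D, hub y s)
    (hDl : ∀ s ∈ D, ∀ t ∈ D, s ≠ t → Link G F y Lam s t) (g : V → ℕ) (X : V → Finset V)
    (hg : ∀ s ∈ D, ∀ i, 1 ≤ i → i ≤ g s →
      (prv F)^[i] s ∈ B ∨ ∃ y' ∈ R, str y' ((prv F)^[i] s))
    (hX : ∀ s ∈ D, ∀ y' ∈ X s, y' ∈ R ∧ y' ≠ y ∧ hub y' ((prv F)^[g s + 1] s))
    (hg1 : ∀ s ∈ D, g s ≤ R.card + B.card)
    (hg2 : ∀ s ∈ D, ∀ t ∈ D, s ≠ t → g s + g t ≤ R.card + B.card) :
    ∑ s ∈ D, (g s + (X s).card) ≤ (R.card - 1) + B.card := by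
  classical
  have hlam := h.lam
  -- the label of a vertex of a run
  have hlab : ∀ q : V × ℕ, ∃ l : V ⊕ V, (q.1 ∈ D → 1 ≤ q.2 → q.2 ≤ g q.1 →
      (l = Sum.inr ((prv F)^[q.2] q.1) ∧ (prv F)^[q.2] q.1 ∈ B) ∨
      ∃ y' ∈ R, y' ≠ y ∧ l = Sum.inl y' ∧ str y' ((prv F)^[q.2] q.1)) := by
    rintro ⟨s, i⟩
    by_cases hc : s ∈ D ∧ 1 ≤ i ∧ i ≤ g s
    · obtain ⟨hs, hi, hig⟩ := hc
      rcases hg s hs i hi hig with h1 | ⟨y', hy', h1⟩
      · exact ⟨Sum.inr ((prv F)^[i] s), fun _ _ _ => Or.inl ⟨rfl, h1⟩⟩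
      · refine ⟨Sum.inl y', fun _ _ _ => Or.inr ⟨y', hy', ?_, rfl, h1⟩⟩
        rintro rfl
        have := hg1 s hs
        exact h.own hy (hD s hs) (hDh s hs) hi (by omega) h1
    · refine ⟨Sum.inl y, fun h1 h2 h3 => absurd ⟨h1, h2, h3⟩ hc⟩
  choose lab hlab using hlab
  -- the tokens
  let tok : Finset (V × (ℕ ⊕ V)) := D.biUnion fun s =>
    ((Finset.Icc 1 (g s)).disjSum (X s)).image (fun l => (s, l))
  have hmem : ∀ q : V × (ℕ ⊕ V), q ∈ tok ↔ q.1 ∈ D ∧
      (q.2 ∈ (Finset.Icc 1 (g q.1)).disjSum (X q.1)) := by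
    rintro ⟨s, l⟩
    simp only [tok, Finset.mem_biUnion, Finset.mem_image, Prod.mk.injEq]
    constructor
    · rintro ⟨s', hs', l', hl', rfl, rfl⟩
      exact ⟨hs', hl'⟩
    · rintro ⟨h1, h2⟩
      exact ⟨s, h1, l, h2, rfl, rfl⟩
  have hcard : tok.card = ∑ s ∈ D, (g s + (X s).card) := by
    rw [Finset.card_biUnion]
    · refine Finset.sum_congr rfl (fun s _ => ?_)
      rw [Finset.card_image_of_injective _ (fun a b hab => (Prod.mk.inj hab).2),
        Finset.card_disjSum, Nat.card_Icc]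
      omega
    · intro s _ t _ hst
      rw [Function.onFun, Finset.disjoint_left]
      rintro q hq hq'
      obtain ⟨l, _, rfl⟩ := Finset.mem_image.1 hq
      obtain ⟨l', _, h2⟩ := Finset.mem_image.1 hq'
      exact hst (Prod.mk.inj h2).1.symm
  -- the labels
  let f : V × (ℕ ⊕ V) → V ⊕ V := fun q => Sum.elim (fun i => lab (q.1, i)) (fun y' => Sum.inl y') q.2
  have hcardT : ((R.erase y).disjSum B).card = (R.card - 1) + B.card := by
    rw [Finset.card_disjSum, Finset.card_erase_of_mem hy]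
  rw [← hcard, ← hcardT]
  -- position and data of a token with label `inl y'`
  have hpos : ∀ q ∈ tok, ∀ y', f q = Sum.inl y' → y' ∈ R ∧ y' ≠ y ∧
      ∃ i, 1 ≤ i ∧ i ≤ g q.1 + 1 ∧ hub y' ((prv F)^[i] q.1) ∧
        ((∃ j, q.2 = Sum.inl j ∧ j = i ∧ i ≤ g q.1 ∧ str y' ((prv F)^[i] q.1)) ∨
          (q.2 = Sum.inr y' ∧ i = g q.1 + 1)) := by
    rintro ⟨s, l⟩ hq y' hf
    obtain ⟨hs, hl⟩ := (hmem _).1 hq
    simp only at hs hl
    rcases l with i | z
    · rw [Finset.inl_mem_disjSum, Finset.mem_Icc] at hl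
      simp only [f, Sum.elim_inl] at hf
      rcases hlab (s, i) hs hl.1 hl.2 with ⟨h1, _⟩ | ⟨y2, h1, h2, h3, h4⟩
      · rw [hf] at h1
        exact absurd h1 (by simp)
      · rw [hf] at h3
        obtain rfl := Sum.inl.inj h3
        exact ⟨h1, h2, i, hl.1, by simp only; omega, h.sh _ h1 _ h4,
          Or.inl ⟨i, rfl, rfl, hl.2, h4⟩⟩
    · rw [Finset.inr_mem_disjSum] at hl
      simp only [f, Sum.elim_inr, Sum.inl.injEq] at hf
      subst hf
      obtain ⟨h1, h2, h3⟩ := hX s hs z hl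
      exact ⟨h1, h2, g s + 1, by omega, le_rfl, h3, Or.inr ⟨rfl, rfl⟩⟩
  have hposB : ∀ q ∈ tok, ∀ u, f q = Sum.inr u → u ∈ B ∧
      ∃ i, 1 ≤ i ∧ i ≤ g q.1 ∧ q.2 = Sum.inl i ∧ u = (prv F)^[i] q.1 := by
    rintro ⟨s, l⟩ hq u hf
    obtain ⟨hs, hl⟩ := (hmem _).1 hq
    simp only at hs hl
    rcases l with i | z
    · rw [Finset.inl_mem_disjSum, Finset.mem_Icc] at hl
      simp only [f, Sum.elim_inl] at hf
      rcases hlab (s, i) hs hl.1 hl.2 with ⟨h1, h2⟩ | ⟨y2, h1, h2, h3, h4⟩
      · rw [hf] at h1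
        obtain rfl := Sum.inr.inj h1
        exact ⟨h2, i, hl.1, hl.2, rfl, rfl⟩
      · rw [hf] at h3
        exact absurd h3 (by simp)
    · simp only [f, Sum.elim_inr] at hf
      exact absurd hf (by simp)
  refine Finset.card_le_card_of_injOn f ?_ ?_
  · intro q hq
    rw [Finset.mem_coe] at hq ⊢
    rcases hfq : f q with y' | u
    · rw [Finset.inl_mem_disjSum, Finset.mem_erase]
      obtain ⟨h1, h2, -⟩ := hpos q hq y' hfq
      exact ⟨h2, h1⟩
    · rw [Finset.inr_mem_disjSum]
      exact (hposB q hq u hfq).1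
  · rintro ⟨s, l⟩ hq ⟨t, l'⟩ hq' hff
    rw [Finset.mem_coe] at hq hq'
    have hs : s ∈ D := ((hmem _).1 hq).1
    have ht : t ∈ D := ((hmem _).1 hq').1
    have gs := hg1 s hs
    have gt := hg1 t ht
    rcases hfq : f (s, l) with y' | u
    · obtain ⟨a1, a2, i, a3, a4, a5, a6⟩ := hpos _ hq y' hfq
      obtain ⟨b1, b2, j, b3, b4, b5, b6⟩ := hpos _ hq' y' (hff ▸ hfq)
      simp only at a3 a4 a5 a6 b3 b4 b5 b6
      have hst : s = t := by
        by_contra hne
        have g2 := hg2 s hs t ht hne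
        refine h.two (a := i - 1) (b := j - 1) hy a1 a2 (hD s hs) (hD t ht) hne
          (hDl s hs t ht hne) (by omega) (by omega) (by omega) ?_ ?_
        · rw [show i - 1 + 1 = i by omega]; exact a5
        · rw [show j - 1 + 1 = j by omega]; exact b5
      subst hst
      have hij : i = j := by
        by_contra hne
        have key : ∀ i j, 1 ≤ i → i < j → j ≤ g s + 1 → hub y' ((prv F)^[j] s) →
            str y' ((prv F)^[i] s) → False := by
          intro i j hi hij hj h1 h2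
          exact h.same a1 (hD s hs) hij (by omega) h2 h1
        rcases Nat.lt_or_gt_of_ne hne with hlt | hlt
        · rcases a6 with ⟨_, _, _, _, a7⟩ | ⟨_, a7⟩
          · exact key i j a3 hlt b4 b5 a7
          · omega
        · rcases b6 with ⟨_, _, _, _, b7⟩ | ⟨_, b7⟩
          · exact key j i b3 hlt a4 a5 b7
          · omega
      subst hij
      rcases a6 with ⟨i', rfl, a7, a8, _⟩ | ⟨rfl, a7⟩ <;>
        rcases b6 with ⟨j', rfl, b7, b8, _⟩ | ⟨rfl, b7⟩
      · rw [a7, b7]
      · omega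
      · omega
      · rfl
    · obtain ⟨a1, i, a3, a4, a5, a6⟩ := hposB _ hq u hfq
      obtain ⟨b1, j, b3, b4, b5, b6⟩ := hposB _ hq' u (hff ▸ hfq)
      simp only at a3 a4 a5 a6 b3 b4 b5 b6
      subst a5 b5
      have hst : s = t := by
        by_contra hne
        have g2 := hg2 s hs t ht hne
        exact link_iter_ne (a := i) (b := j) h.max (hD s hs) (hD t ht) hne
          (hDl s hs t ht hne) (by omega) (by omega) (a6.symm.trans b6)
      subst hst
      have hij : i = j := by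
        by_contra hne
        rcases Nat.lt_or_gt_of_ne hne with hlt | hlt
        · exact h.pos_ne (hD s hs) hlt (by omega) (a6.symm.trans b6)
        · exact h.pos_ne (hD s hs) hlt (by omega) (b6.symm.trans a6)
      rw [hij]

/-- all the runs together are short -/
theorem runs_g (h : RunData G F R B hub str Lam) {y : V} (hy : y ∈ R) {D : Finset V}
    (hD : ∀ s ∈ D, s ∈ F.flatten) (hDh : ∀ s ∈ D, hub y s)
    (hDl : ∀ s ∈ D, ∀ t ∈ D, s ≠ t → Link G F y Lam s t) : ∀ (n : ℕ) (g : V → ℕ),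
    ∑ s ∈ D, g s = n →
    (∀ s ∈ D, ∀ i, 1 ≤ i → i ≤ g s →
      (prv F)^[i] s ∈ B ∨ ∃ y' ∈ R, str y' ((prv F)^[i] s)) →
    ∑ s ∈ D, g s ≤ (R.card - 1) + B.card := by
  classical
  intro n
  induction n with
  | zero =>
    intro g h0 _
    rw [h0]
    exact Nat.zero_le _
  | succ n ih =>
    intro g hn hg
    have hRp : 1 ≤ R.card := Finset.card_pos.2 ⟨y, hy⟩
    obtain ⟨s, hs, hgs⟩ : ∃ s ∈ D, g s ≠ 0 := by
      by_contra hcon
      push Not at hcon
      rw [Finset.sum_eq_zero hcon] at hn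
      omega
    have h1 : ∑ t ∈ D, Function.update g s (g s - 1) t = n := by
      rw [← Finset.add_sum_erase D _ hs] at hn ⊢
      rw [Function.update_self, Finset.sum_congr rfl (fun t ht => Function.update_of_ne
        (Finset.ne_of_mem_erase ht) _ _)]
      omega
    have h2 := ih (Function.update g s (g s - 1)) h1 (by
      intro t ht i hi hit
      refine hg t ht i hi (hit.trans ?_)
      by_cases hts : t = s
      · subst hts
        rw [Function.update_self]
        omega
      · rw [Function.update_of_ne hts])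
    rw [h1] at h2
    have h3 := h.runs_aux hy hD hDh hDl g (fun _ => ∅) hg (by
        intro s _ y' hy'
        exact absurd hy' (by simp))
      (by
        intro t ht
        have := Finset.single_le_sum (f := g) (fun i _ => Nat.zero_le _) ht
        omega)
      (by
        intro t ht t' ht' hne
        have h4 : ∑ i ∈ ({t, t'} : Finset V), g i ≤ ∑ i ∈ D, g i := by
          refine Finset.sum_le_sum_of_subset ?_
          intro x hx
          rw [Finset.mem_insert, Finset.mem_singleton] at hx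
          rcases hx with rfl | rfl
          · exact ht
          · exact ht'
        rw [Finset.sum_pair hne] at h4
        omega)
    simpa using h3

/-- RUNS: run lengths and weak components of the run ends together. -/
theorem runs (h : RunData G F R B hub str Lam) {y : V} (hy : y ∈ R) {D : Finset V}
    (hD : ∀ s ∈ D, s ∈ F.flatten) (hDh : ∀ s ∈ D, hub y s)
    (hDl : ∀ s ∈ D, ∀ t ∈ D, s ≠ t → Link G F y Lam s t) (g : V → ℕ) (X : V → Finset V)
    (hg : ∀ s ∈ D, ∀ i, 1 ≤ i → i ≤ g s →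
      (prv F)^[i] s ∈ B ∨ ∃ y' ∈ R, str y' ((prv F)^[i] s))
    (hX : ∀ s ∈ D, ∀ y' ∈ X s, y' ∈ R ∧ y' ≠ y ∧ hub y' ((prv F)^[g s + 1] s)) :
    ∑ s ∈ D, (g s + (X s).card) ≤ (R.card - 1) + B.card := by
  classical
  have h1 := h.runs_g hy hD hDh hDl _ g rfl hg
  refine h.runs_aux hy hD hDh hDl g X hg hX ?_ ?_
  · intro t ht
    have := Finset.single_le_sum (f := g) (fun i _ => Nat.zero_le _) ht
    omega
  · intro t ht t' ht' hne
    have h4 : ∑ i ∈ ({t, t'} : Finset V), g i ≤ ∑ i ∈ D, g i := by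
      refine Finset.sum_le_sum_of_subset ?_
      intro x hx
      rw [Finset.mem_insert, Finset.mem_singleton] at hx
      rcases hx with rfl | rfl
      · exact ht
      · exact ht'
    rw [Finset.sum_pair hne] at h4
    omega

/-- the end of the run before a hub -/
theorem run_end (h : RunData G F R B hub str Lam) {y s : V} (hy : y ∈ R) (hs : s ∈ F.flatten)
    (hh : hub y s) : ∃ g, g ≤ (R.card - 1) + B.card ∧
      (∀ i, 1 ≤ i → i ≤ g → (prv F)^[i] s ∈ B ∨ ∃ y' ∈ R, str y' ((prv F)^[i] s)) ∧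
      (prv F)^[g + 1] s ∉ B ∧ ∀ y' ∈ R, ¬ str y' ((prv F)^[g + 1] s) := by
  classical
  have key : ∀ g, (∀ i, 1 ≤ i → i ≤ g → (prv F)^[i] s ∈ B ∨ ∃ y' ∈ R, str y' ((prv F)^[i] s)) →
      g ≤ (R.card - 1) + B.card := by
    intro g hg
    have h1 := h.runs_g (D := {s}) hy (by simpa using hs) (by simpa using hh) (by
      intro a ha b hb hab
      rw [Finset.mem_singleton] at ha hb
      exact absurd (ha.trans hb.symm) hab) _ (fun _ => g) rfl (by simpa using hg)
    simpa using h1
  by_contra hcon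
  push Not at hcon
  have hall : ∀ g, ∀ i, 1 ≤ i → i ≤ g → (prv F)^[i] s ∈ B ∨ ∃ y' ∈ R, str y' ((prv F)^[i] s) := by
    intro g
    induction g with
    | zero => intro i h1 h2; omega
    | succ g ih =>
      intro i hi hig
      rcases Nat.lt_or_ge i (g + 1) with h1 | h1
      · exact ih i hi (by omega)
      · have he : i = g + 1 := by omega
        subst he
        by_cases hB : (prv F)^[g + 1] s ∈ B
        · exact Or.inl hB
        · right
          obtain ⟨y', h2, h3⟩ := hcon g (key g ih) ih hB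
          exact ⟨y', h2, h3⟩
  have := key _ (hall ((R.card - 1) + B.card + 1))
  omega

/-- all the hubs at once: run lengths `g` and run ends `e` -/
theorem exists_runs (h : RunData G F R B hub str Lam) {y : V} (hy : y ∈ R) :
    ∃ g : V → ℕ, ∀ s ∈ F.flatten, hub y s → g s ≤ (R.card - 1) + B.card ∧
      (∀ i, 1 ≤ i → i ≤ g s → (prv F)^[i] s ∈ B ∨ ∃ y' ∈ R, str y' ((prv F)^[i] s)) ∧
      (prv F)^[g s + 1] s ∉ B ∧ ∀ y' ∈ R, ¬ str y' ((prv F)^[g s + 1] s) := by
  classical
  have : ∀ s, ∃ g : ℕ, s ∈ F.flatten → hub y s → g ≤ (R.card - 1) + B.card ∧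
      (∀ i, 1 ≤ i → i ≤ g → (prv F)^[i] s ∈ B ∨ ∃ y' ∈ R, str y' ((prv F)^[i] s)) ∧
      (prv F)^[g + 1] s ∉ B ∧ ∀ y' ∈ R, ¬ str y' ((prv F)^[g + 1] s) := by
    intro s
    by_cases hc : s ∈ F.flatten ∧ hub y s
    · obtain ⟨g, hg⟩ := h.run_end hy hc.1 hc.2
      exact ⟨g, fun _ _ => hg⟩
    · exact ⟨0, fun h1 h2 => absurd ⟨h1, h2⟩ hc⟩
  choose g hg using this
  exact ⟨g, hg⟩

/-- the run end of a strong hub of `y` is no hub of `y` -/
theorem end_own (h : RunData G F R B hub str Lam) {y s : V} (hy : y ∈ R) (hs : s ∈ F.flatten)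
    (hst : str y s) {g : ℕ} (hg : g ≤ (R.card - 1) + B.card) :
    ¬ hub y ((prv F)^[g + 1] s) := by
  intro hh
  have hRp : 1 ≤ R.card := Finset.card_pos.2 ⟨y, hy⟩
  exact h.same (i := 0) (j := g + 1) hy hs (by omega) (by omega) hst hh

/-- the run end of `s` is a hub of the component `l` of a vertex of the run only if .. never -/
theorem end_label (h : RunData G F R B hub str Lam) {y l s : V} (hy : y ∈ R) (hl : l ∈ R)
    (hs : s ∈ F.flatten) {g i : ℕ} (hg : g ≤ (R.card - 1) + B.card) (hi : i ≤ g)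
    (hst : str l ((prv F)^[i] s)) : ¬ hub l ((prv F)^[g + 1] s) := by
  intro hh
  have hRp : 1 ≤ R.card := Finset.card_pos.2 ⟨y, hy⟩
  exact h.same (i := i) (j := g + 1) hl hs (by omega) (by omega) hst hh

end RunData

end TFA
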